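import Pool.Agent.H6.FI.TargetsC

/-!
# MP_7500ea_al, board fi_modules, row GDA
-/

open scoped Classical ComplexConjugate

namespace Pool.Agent.H54.FI

open _root_.FI AMc AMt

theorem acd_nonneg {G : Type} [Group G] [Finite G] (N : Subgroup G) (θ : N → ℂ) :
    0 ≤ acd N θ := by
  unfold acd
  apply div_nonneg _ (Nat.cast_nonneg _)
  apply finsum_nonneg
  intro χ
  apply finsum_nonneg
  intro hχ
  obtain ⟨n, ρ, hρ, h⟩ := hχ.1
  rw [← h, Representation.char_one]
  simp

theorem pf_GDA (h1 : T_SOL) (h2 : T_SQ) (h3 : T_BRG) : T_GDA := by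
  intro e he Y _ _ hG X _ _ hK hX Γ _ _ Z q hq ν hν
  obtain ⟨S, W, _, _, a, b, ha, hb, hak, hbk⟩ := hK
  -- `a` is injective
  have hka : a.ker = ⊥ := by
    have h := (h1 X).2.1 a.ker inferInstance hak
    rw [hX] at h
    exact le_bot_iff.mp h
  have hai : Function.Injective a := (MonoidHom.ker_eq_bot_iff a).mp hka
  -- `sol W = ⊥`
  have hW : sol W = ⊥ := by
    have h := (h2 X W a ha hak).2
    have h' : (sol W) = ((sol W).comap a).map a :=
      (Subgroup.map_comap_eq_self_of_surjective ha _).symm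
    rw [h', h, hX, Subgroup.map_bot]
  have hS : b.ker = sol S := by
    rw [← (h2 S W b hb hbk).2, hW]
    rfl
  have hidx : ((sol S).index : ℝ) = (Nat.card X : ℝ) := by
    rw [(h2 S W b hb hbk).1, hW, Subgroup.index_bot]
    congr 1
    exact (Nat.card_congr (Equiv.ofBijective a ⟨hai, ha⟩)).symm
  let E : S ⧸ b.ker ≃* W := QuotientGroup.quotientKerEquivOfSurjective b hb
  let E2 : S ⧸ b.ker ≃* S ⧸ sol S := QuotientGroup.quotientMulEquivOfEq hS
  let E3 : W ≃* S ⧸ sol S := E.symm.trans E2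
  let q' : Γ →* S ⧸ sol S := E3.toMonoidHom.comp (a.comp q)
  have hq's : Function.Surjective q' := by
    intro y
    obtain ⟨w, hw⟩ := E3.surjective y
    obtain ⟨x, hx⟩ := ha w
    obtain ⟨g, hg⟩ := hq.sur x
    refine ⟨g, ?_⟩
    change E3 (a (q g)) = y
    rw [hg, hx, hw]
  have hq'k : q'.ker = Z := by
    ext x
    rw [MonoidHom.mem_ker]
    change E3 (a (q x)) = 1 ↔ _
    rw [map_eq_one_iff E3 E3.injective, map_eq_one_iff a hai, hq.ker]
  subst hq'k
  obtain ⟨ψ, hψ, rfl⟩ := hν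
  have hcen : q'.ker ≤ Subgroup.center Γ := by
    intro z hz
    rw [Subgroup.mem_center_iff]
    intro g
    exact (hq.cen z hz g).symm
  have hmain := hG.chr S Γ q' hq's hcen ψ hψ
  rw [hidx] at hmain
  have hb3 := (h3 Γ q'.ker ψ hψ).2
  have hr : (Nat.card X : ℝ) ^ (1 / e) ≤ acd q'.ker ψ := by
    have h0 : (0 : ℝ) ≤ (Nat.card X : ℝ) := Nat.cast_nonneg _
    have h := Real.rpow_le_rpow h0 hmain (by positivity : 0 ≤ 1 / e)
    rw [← Real.rpow_mul (acd_nonneg _ _), mul_one_div_cancel he.ne', Real.rpow_one] at h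
    exact h
  rw [← hb3]
  exact mul_le_mul_of_nonneg_right hr (Nat.cast_nonneg _)

end Pool.Agent.H54.FI
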