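import Pool.Agent.H6.FI.TargetsC
import Pool.Agent.H6.FI.Lib

/-!
# MP_7500ea_al, board fi_modules, row TRC
-/

open scoped Classical ComplexConjugate

namespace Pool.Agent.H54.FI

open _root_.FI AMc AMt

/-- the extension by zero of a linear function on a central subgroup -/
noncomputable def nuE {Q : Type} [Group Q] (Zs : Subgroup Q) (νs : Q → ℂ) : Q → ℂ :=
  fun x => if x ∈ Zs then νs x else 0

theorem nuE_of_mem {Q : Type} [Group Q] {Zs : Subgroup Q} {νs : Q → ℂ} {x : Q} (h : x ∈ Zs) :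
    nuE Zs νs x = νs x := if_pos h

theorem nuE_of_not {Q : Type} [Group Q] {Zs : Subgroup Q} {νs : Q → ℂ} {x : Q} (h : x ∉ Zs) :
    nuE Zs νs x = 0 := if_neg h

section

variable {Q : Type} [Group Q] [Fintype Q] {Zs : Subgroup Q} {νs : Q → ℂ}

theorem nus_inv (h : Cen ⊤ Zs νs) {z : Q} (hz : z ∈ Zs) : νs z * νs z⁻¹ = 1 := by
  rw [← h.mul z hz z⁻¹ (Zs.inv_mem hz), mul_inv_cancel, h.one]

/-- the linear character of `Zs` -/
noncomputable def nuHom (h : Cen ⊤ Zs νs) : Zs →* ℂˣ where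
  toFun z := ⟨νs z, νs (z : Q)⁻¹, nus_inv h z.2, by rw [mul_comm]; exact nus_inv h z.2⟩
  map_one' := by
    ext
    simpa using h.one
  map_mul' := by
    intro a b
    ext
    simpa using h.mul a a.2 b b.2

theorem nuE_isChar (h : Cen ⊤ Zs νs) : IsChar Zs (fun n => nuE Zs νs n) := by
  have h1 := Lib.lA4.2.2 Zs (nuHom h)
  have h2 : (fun n : Zs => nuE Zs νs n) = fun g => ((nuHom h g : ℂˣ) : ℂ) := by
    funext n
    rw [nuE_of_mem n.2]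
    rfl
  rw [h2]
  exact h1

theorem nuE_conj (h : Cen ⊤ Zs νs) {z : Q} (hz : z ∈ Zs) :
    nuE Zs νs z * conj (nuE Zs νs z) = 1 := by
  have h1 := ((Lib.lA3 Zs).2.1 _ (nuE_isChar h)).2.1 ⟨z, hz⟩
  have h2 : conj (nuE Zs νs z) = nuE Zs νs z⁻¹ := h1
  rw [h2, nuE_of_mem hz, nuE_of_mem (Zs.inv_mem hz)]
  exact nus_inv h hz

theorem sum_cond (Zs : Subgroup Q) (f : Q → ℂ) (c : ℂ) (h0 : ∀ g, g ∉ Zs → f g = 0)
    (h1 : ∀ g ∈ Zs, f g = c) : ∑ g : Q, f g = (Nat.card Zs : ℂ) * c := by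
  have h2 : ∀ g, f g = if g ∈ Zs then c else 0 := by
    intro g
    by_cases hg : g ∈ Zs
    · rw [if_pos hg, h1 g hg]
    · rw [if_neg hg, h0 g hg]
  rw [Finset.sum_congr rfl fun g _ => h2 g, ← Finset.sum_filter, Finset.sum_const, nsmul_eq_mul]
  congr 2
  rw [Nat.card_eq_fintype_card, Fintype.card_subtype]

theorem nuE_irr (h : Cen ⊤ Zs νs) : nuE Zs νs ∈ IrrS Zs := by
  refine Lib.lS10 Q Zs _ (fun g hg => nuE_of_not hg) (nuE_isChar h) ?_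
  rw [sum_cond Zs _ 1 (fun g hg => by rw [nuE_of_not hg, zero_mul])
    (fun g hg => nuE_conj h hg), mul_one]

theorem over_nuE (h : Cen ⊤ Zs νs) {η : Q → ℂ} (hη : η ∈ IrrS (⊤ : Subgroup Q)) :
    Over η (nuE Zs νs) ↔ ∀ z ∈ Zs, η z = νs z * η 1 := by
  obtain ⟨-, -, ⟨d, hd, hd1⟩, -⟩ := Lib.lS1 Q ⊤ η hη
  constructor
  · intro ho z hz
    obtain ⟨a, t, -, -, -, h1, -, h2⟩ := Lib.lE3 Q Zs ⊤ le_top (by
      intro u _ g hg
      rw [← h.cen g hg u trivial, mul_inv_cancel_right]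
      exact hg) η hη _ (nuE_irr h) ho
    have h3 := h2 z hz
    have h4 : ∀ u : (⊤ : Subgroup Q), nuE Zs νs ((u : Q) * z * (u : Q)⁻¹) = νs z := by
      intro u
      rw [← h.cen z hz u trivial, mul_inv_cancel_right, nuE_of_mem hz]
    rw [Finset.sum_congr rfl fun u _ => h4 u, Finset.sum_const, nsmul_eq_mul,
      Finset.card_univ, ← Nat.card_eq_fintype_card] at h3
    have h5 : ((Nat.card (⊤ : Subgroup Q) : ℕ) : ℂ) ≠ 0 := by
      exact_mod_cast Nat.card_pos.ne'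
    rw [nuE_of_mem Zs.one_mem, h.one, mul_one] at h1
    rw [h1]
    apply mul_left_cancel₀ h5
    rw [h3]
    ring
  · intro hz
    unfold Over
    have h1 : ∑ g : Q, η g * conj (nuE Zs νs g) = (Nat.card Zs : ℂ) * η 1 := by
      refine sum_cond Zs _ _ (fun g hg => by rw [nuE_of_not hg, map_zero, mul_zero])
        (fun g hg => ?_)
      rw [hz g hg]
      have h2 := nuE_conj h hg
      rw [nuE_of_mem hg] at h2 ⊢
      rw [mul_right_comm, h2, one_mul]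
    rw [h1, hd1]
    have h5 : ((Nat.card Zs : ℕ) : ℂ) ≠ 0 := by
      exact_mod_cast Nat.card_pos.ne'
    have h6 : (d : ℂ) ≠ 0 := by exact_mod_cast hd.ne'
    exact mul_ne_zero h5 h6

end

theorem pf_TRC : T_TRC := by
  intro Y _ _ c hc hyp Γ _ _ K U hn θ hθ hinv q0 hq0 hk0
  obtain ⟨H, _, _, p, i, τ, hT, -⟩ := Lib.lTG Γ K U hn θ hθ hinv
  obtain ⟨Q, _, _, qq, Zs, νs, hQ⟩ := Lib.lQD Γ K U θ H p i τ hT
  obtain ⟨hcen, hQ1, hQ2, hQ3⟩ := Lib.lQE Γ K U θ H p i τ Q qq Zs νs hQ U hn.le le_rfl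
  have htop : (U.comap p).map qq = ⊤ := by
    have h1 : U.comap p = ⊤ := by
      rw [← hT.rng]
      ext x
      simp
    rw [h1, Subgroup.map_top_of_surjective qq hQ.sur]
  rw [htop] at hcen hQ1 hQ2 hQ3
  have hpU : ∀ a, p a ∈ U := fun a => by rw [← hT.rng]; exact ⟨a, rfl⟩
  let g0 : H →* Y := q0.comp (p.codRestrict U hpU)
  have hg0 : ∀ a, g0 a = 1 ↔ p a ∈ K := fun a => hk0 ⟨p a, hpU a⟩
  have hker : qq.ker ≤ g0.ker := by
    intro a ha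
    rw [MonoidHom.mem_ker] at ha ⊢
    obtain ⟨k, rfl⟩ := (hQ.ker a).mp ha
    rw [hg0, hT.pi]
    exact k.2
  let qh : Q →* Y := qq.liftOfSurjective hQ.sur ⟨g0, hker⟩
  have hqh : ∀ a, qh (qq a) = g0 a := fun a =>
    MonoidHom.liftOfRightInverse_comp_apply qq _ (Function.rightInverse_surjInv hQ.sur)
      ⟨g0, hker⟩ a
  have hext : CExt Zs qh := by
    refine ⟨?_, ?_, fun z hz g => hcen.cen z hz g trivial⟩
    · intro y
      obtain ⟨u, hu⟩ := hq0 y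
      have hu2 : (u : Γ) ∈ p.range := by rw [hT.rng]; exact u.2
      obtain ⟨a, ha⟩ := hu2
      refine ⟨qq a, ?_⟩
      rw [hqh, ← hu]
      change q0 ⟨p a, hpU a⟩ = _
      congr 1
      exact Subtype.ext ha
    · intro x
      obtain ⟨a, rfl⟩ := hQ.sur x
      rw [hqh, hg0, hQ.zs]
      constructor
      · intro h
        refine ⟨a * (i ⟨p a, h⟩)⁻¹, ?_, ?_⟩
        · change p _ = 1
          rw [map_mul, map_inv, hT.pi, mul_inv_cancel]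
        · rw [map_mul, map_inv, (hQ.ker (i ⟨p a, h⟩)).mpr ⟨_, rfl⟩, inv_one, mul_one]
      · rintro ⟨z, hz, hz2⟩
        have hz1 : p z = 1 := hz
        have h1 : qq (a * z⁻¹) = 1 := by
          rw [map_mul, map_inv, hz2, mul_inv_cancel]
        obtain ⟨k, hk⟩ := (hQ.ker _).mp h1
        have h2 := congrArg p hk
        rw [hT.pi, map_mul, map_inv, hz1, inv_one, mul_one] at h2
        rw [← h2]
        exact k.2
  have hmain := hyp Q Zs qh hext _ (nuE_irr hcen)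
  -- the bijection
  have hF : ∀ ψ ∈ Ab U θ, ∃ η, η ∈ IrrS (⊤ : Subgroup Q) ∧ Ql U p τ qq ψ η ∧
      (∀ z ∈ Zs, η z = νs z * η 1) ∧ ψ 1 = θ 1 * η 1 := by
    intro ψ hψ
    obtain ⟨η, h1, h2, h3, h4⟩ := hQ1 ψ hψ.1 hψ.2
    exact ⟨η, h1, h2, h3, h4⟩
  choose! F hF1 hF2 hF3 hF4 using hF
  have hbij : Set.BijOn F (Ab U θ) (Ab ⊤ (nuE Zs νs)) := by
    refine ⟨fun ψ hψ => ⟨hF1 ψ hψ, (over_nuE hcen (hF1 ψ hψ)).mpr (hF3 ψ hψ)⟩, ?_, ?_⟩
    · intro ψ hψ ψ' hψ' he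
      exact (hQ3 ψ hψ.1 ψ' hψ'.1 (F ψ) (hF1 ψ hψ) (F ψ') (hF1 ψ' hψ') (hF2 ψ hψ)
        (hF2 ψ' hψ')).1.mpr he
    · intro η hη
      obtain ⟨ψ, h1, h2, h3⟩ := hQ2 η hη.1 ((over_nuE hcen hη.1).mp hη.2)
      have hψ : ψ ∈ Ab U θ := ⟨h1, h2⟩
      refine ⟨ψ, hψ, ?_⟩
      exact ((hQ3 ψ h1 ψ h1 (F ψ) (hF1 ψ hψ) η hη.1 (hF2 ψ hψ) h3).1.mp rfl)
  obtain ⟨-, -, ⟨d, hd, hd1⟩, -⟩ := Lib.lS1 Γ K θ hθ
  have hkk : kk U θ = kk ⊤ (nuE Zs νs) := by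
    unfold kk
    rw [← hbij.image_eq, Set.ncard_image_of_injOn hbij.injOn]
  have hfin : (Ab (⊤ : Subgroup Q) (nuE Zs νs)).Finite := by
    obtain ⟨fs, hfs, -⟩ := Lib.lS9 Q ⊤
    exact (Finset.finite_toSet fs).subset fun η hη => by
      rw [Finset.mem_coe, hfs]
      exact hη.1
  have hdd : dd U θ = (θ 1).re * dd ⊤ (nuE Zs νs) := by
    unfold dd
    rw [mul_finsum_mem' _ _ hfin]
    refine finsum_mem_eq_of_bijOn F hbij fun ψ hψ => ?_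
    rw [hF4 ψ hψ, hd1]
    simp
  rw [hkk, hdd]
  have hθ0 : 0 ≤ (θ 1).re := by
    rw [hd1]
    simp
  calc c * (θ 1).re * (kk ⊤ (nuE Zs νs) : ℝ) = (θ 1).re * (c * kk ⊤ (nuE Zs νs)) := by ring
    _ ≤ _ := mul_le_mul_of_nonneg_left hmain hθ0

end Pool.Agent.H54.FI
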